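import Pool.Agent.H200W.Stm2

/-! # Project WR, jobs BLOCKS and BLOCKE: a block of equal multiplicities is a unit. -/

set_option autoImplicit false

namespace Pool.Agent.Q24.WR

open Finset Pool.Agent.TH176.Nag Pool.Agent.TH603.Sur Pool.Agent.TH2.NU Pool.Agent.TH641.UM
open Pool.Agent.Y205.FW Pool.Agent.Y205.MD Pool.Agent.H200W

theorem ms_rep (N a : ℕ) : ms (fun _ : Fin N => a) = Multiset.replicate N a := by
  rw [ms_fin, Multiset.nsmul_singleton]

theorem SurM_rep {N a : ℕ} {S : Set (ℤ × ℤ)} (h : Sur (fun _ : Fin N => a) S) :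
    SurM (Multiset.replicate N a) S := (SurM_iff (ms_rep N a) S).2 h

theorem EmpM_rep {N a : ℕ} {S : Set (ℤ × ℤ)} (h : Emp (fun _ : Fin N => a) S) :
    EmpM (Multiset.replicate N a) S := (EmpM_iff (ms_rep N a) S).2 h

theorem stSeq : StSeq := Pool.Agent.Y100.FW.seq Pool.Agent.Y665.FW.key

/-- open right triangles of a fixed height increase with the slope -/
theorem RO_mono {h ρ ρ' : ℝ} (hρ : ρ ≤ ρ') (h0 : 0 < ρ) : RO (ρ * h) ρ ⊆ RO (ρ' * h) ρ' := by
  rintro ⟨x, y⟩ ⟨h1, h2, h3⟩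
  simp only at h1 h2 h3
  have hx : (0 : ℝ) < x := by exact_mod_cast h1
  have h4 : 0 < ρ * (h - y) := by linarith
  have h5 : 0 < h - y := by
    by_contra hc
    have := mul_nonpos_of_nonneg_of_nonpos h0.le (not_lt.1 hc)
    linarith
  have h6 := mul_le_mul_of_nonneg_right hρ h5.le
  exact ⟨h1, h2, by simp only; linarith⟩

/-- closed right triangles of a fixed height increase with the slope -/
theorem RC_mono {h ρ ρ' : ℝ} (hρ : ρ ≤ ρ') (h0 : 0 < ρ) : RC (ρ * h) ρ ⊆ RC (ρ' * h) ρ' := by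
  rintro ⟨x, y⟩ ⟨h1, h2, h3⟩
  simp only at h1 h2 h3
  have hx : (0 : ℝ) ≤ x := by exact_mod_cast h1
  have h4 : 0 ≤ ρ * (h - y) := by linarith
  have h5 : 0 ≤ h - y := by
    by_contra hc
    have := mul_neg_of_pos_of_neg h0 (not_le.1 hc)
    linarith
  have h6 := mul_le_mul_of_nonneg_right hρ h5
  exact ⟨h1, h2, by simp only; linarith⟩

/-- a donor in a right triangle -/
theorem donorRO {N a : ℕ} {H ρ : ℝ} (hρd : ρ * H ^ 2 = N * (a + 1) ^ 2 + H) (hρ : 2 ≤ ρ)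
    (hN : 4 * ρ ≤ N) (hH : 1 ≤ H) : SurM (Multiset.replicate N a) (RO (ρ * H) ρ) := by
  refine SurM_rep ?_
  have h := Sur_donor stSeq (N := N) (u := a) (H := H) (ρ := ρ) (μ := 0) (ν := ρ) 0 hρd hρ
    (by ring) hN hH
  refine h.mono ?_
  rintro ⟨x, y⟩ ⟨h1, h2, h3⟩
  simp only at h1 h2 h3
  refine ⟨?_, h1, ?_⟩
  · have : (0 : ℝ) < x := by linarith
    exact_mod_cast this
  · simp only; linarith

theorem blockS : S_BlockS := by
  intro hTip N a h hah hNh ρ hρ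
  obtain ⟨U, hU⟩ : ∃ U : ℝ, U = (a : ℝ) + 1 := ⟨_, rfl⟩
  have hU1 : 1 ≤ U := by rw [hU]; linarith [show (0 : ℝ) ≤ a from Nat.cast_nonneg _]
  rw [← hU] at hah hNh hρ
  have hh8 : 8 ≤ h := by linarith
  have hh0 : 0 < h := by linarith
  have hN32 : (32 : ℝ) ≤ N := by
    have h1 : 32 * U ≤ N * U := by linarith
    exact le_of_mul_le_mul_right h1 (by linarith)
  have hN0 : (0 : ℝ) < N := by linarith
  have hNU : (0 : ℝ) < N * U ^ 2 := by positivity
  obtain ⟨ρ0, hρ0⟩ : ∃ ρ0 : ℝ, ρ0 = (N * U ^ 2 + 2 * h) / h ^ 2 := ⟨_, rfl⟩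
  have e0 : ρ0 * h ^ 2 = N * U ^ 2 + 2 * h := by rw [hρ0]; field_simp
  have hρ0p : 0 < ρ0 := by rw [hρ0]; positivity
  have hle : ρ0 ≤ ρ := by
    have : ρ0 * h ^ 2 ≤ ρ * h ^ 2 := by rw [e0]; exact hρ
    exact le_of_mul_le_mul_right this (by positivity)
  suffices hs : SurM (Multiset.replicate N a) (RO (ρ0 * h) ρ0) from
    Sur.mono hs (RO_mono hle hρ0p)
  obtain ⟨ρ1, hρ1⟩ : ∃ ρ1 : ℝ, ρ1 = (N * U ^ 2 + h) / h ^ 2 := ⟨_, rfl⟩
  have e1 : ρ1 * h ^ 2 = N * U ^ 2 + h := by rw [hρ1]; field_simp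
  have hρ1p : 0 < ρ1 := by rw [hρ1]; positivity
  have h10 : ρ0 = ρ1 + 1 / h := by rw [hρ0, hρ1]; field_simp; ring
  have hih : 0 < 1 / h := by positivity
  have hih8 : 1 / h ≤ 1 / 8 := one_div_le_one_div_of_le (by norm_num) hh8
  rcases le_or_gt 2 ρ1 with hc | hc
  · refine Sur.mono (donorRO (N := N) (a := a) (H := h) (ρ := ρ1) (by rw [← hU]; exact e1) hc ?_
      (by linarith)) (RO_mono (by linarith) hρ1p)
    have h1 : 8 * U ≤ h := hah
    have h2 : N * U ^ 2 * 64 ≤ N * h ^ 2 := by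
      have : (8 * U) ^ 2 ≤ h ^ 2 := pow_le_pow_left₀ (by linarith) h1 2
      nlinarith
    have h3 : 4 * ρ1 * h ^ 2 ≤ N * h ^ 2 := by
      have h4 : 4 * ρ1 * h ^ 2 = 4 * (N * U ^ 2) + 4 * h := by linarith
      have h5 : 4 * h ≤ 16 * h ^ 2 := by nlinarith
      have h6 : 32 * h ^ 2 ≤ N * h ^ 2 := mul_le_mul_of_nonneg_right hN32 (sq_nonneg _)
      linarith
    exact le_of_mul_le_mul_right h3 (by positivity)
  · have hρ0lt : ρ0 < 17 / 8 := by linarith
    refine hTip (b := ρ0 * h) (ρ := ρ0) (by positivity) hρ0p ?_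
    have eb : ρ0 * h * (1 + ρ0) / ρ0 = h * (1 + ρ0) := by field_simp
    rw [eb]
    obtain ⟨r, hr⟩ : ∃ r : ℝ, r = (1 + ρ0) ^ 2 / ρ0 := ⟨_, rfl⟩
    rw [← hr]
    have er : r = ρ0 + 2 + 1 / ρ0 := by rw [hr]; field_simp; ring
    have hinv : 1 / ρ0 ≤ N / 16 := by
      rw [div_le_div_iff₀ hρ0p (by norm_num), one_mul]
      have h1 : 16 * h ^ 2 ≤ N * ρ0 * h ^ 2 := by
        have h2 : (4 * h) ^ 2 ≤ (N * U) ^ 2 := pow_le_pow_left₀ (by linarith) hNh 2
        have h3 : N * ρ0 * h ^ 2 = (N * U) ^ 2 + 2 * (N * h) := by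
          have : N * ρ0 * h ^ 2 = N * (ρ0 * h ^ 2) := by ring
          rw [this, e0]; ring
        have h4 : 0 < N * h := by positivity
        nlinarith
      exact le_of_mul_le_mul_right h1 (by positivity)
    have hr4N : 4 * r ≤ N := by rw [er]; linarith
    have hr4 : 4 ≤ r := by
      rw [hr, le_div_iff₀ hρ0p]
      nlinarith [sq_nonneg (1 - ρ0)]
    have hr0 : 0 < r := by linarith
    -- the root
    obtain ⟨D, hD⟩ : ∃ D : ℝ, D = √(1 + 4 * r * (N * U ^ 2)) := ⟨_, rfl⟩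
    have hD2 : D ^ 2 = 1 + 4 * r * (N * U ^ 2) := by
      rw [hD, Real.sq_sqrt]; positivity
    have hD0 : 0 ≤ D := by rw [hD]; exact Real.sqrt_nonneg _
    obtain ⟨H, hH⟩ : ∃ H : ℝ, H = (1 + D) / (2 * r) := ⟨_, rfl⟩
    have hH0 : 0 < H := by rw [hH]; positivity
    have eH : r * H ^ 2 = N * U ^ 2 + H := by
      have h1 : r * H ^ 2 - H = (D ^ 2 - 1) / (4 * r) := by
        rw [hH]; field_simp; ring
      rw [hD2] at h1
      have h2 : (1 + 4 * r * (N * U ^ 2) - 1) / (4 * r) = N * U ^ 2 := by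
        field_simp; ring
      linarith
    have hH1 : 1 ≤ H := by
      have h1 : r * 1 ≤ r * H ^ 2 := by
        have h2 : (N : ℝ) ≤ N * U ^ 2 := by
          have : (1 : ℝ) ≤ U ^ 2 := one_le_pow₀ hU1
          nlinarith
        linarith
      have h2 : 1 ≤ H ^ 2 := le_of_mul_le_mul_left h1 hr0
      nlinarith
    have hHh : r * H ≤ h * (1 + ρ0) := by
      by_contra hcon
      push Not at hcon
      obtain ⟨h', hh'⟩ : ∃ h' : ℝ, h' = h * (1 + ρ0) / r := ⟨_, rfl⟩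
      have e2 : r * h' = h * (1 + ρ0) := by rw [hh']; field_simp
      have h'0 : 0 < h' := by rw [hh']; positivity
      have h3 : h' < H := by
        have : r * h' < r * H := by rw [e2]; exact hcon
        exact lt_of_mul_lt_mul_left this hr0.le
      have e3 : h' = h * ρ0 / (1 + ρ0) := by
        rw [hh', hr]; field_simp
      have h4 : h' ≤ h := by
        rw [e3, div_le_iff₀ (by linarith)]
        nlinarith
      have e4 : r * h' ^ 2 = ρ0 * h ^ 2 := by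
        have : r * h' ^ 2 = (r * h') * h' := by ring
        rw [this, e2, e3]; field_simp
      have h5 : 0 < (H - h') * (r * (H + h') - 1) := by
        apply mul_pos (by linarith)
        have : 4 * 1 ≤ r * (H + h') := mul_le_mul hr4 (by linarith) (by norm_num) hr0.le
        linarith
      have h6 : (H - h') * (r * (H + h') - 1) = (r * H ^ 2 - H) - (r * h' ^ 2 - h') := by ring
      rw [h6, eH, e4, e0] at h5
      linarith
    refine Sur.mono (donorRO (N := N) (a := a) (H := H) (ρ := r) (by rw [← hU]; exact eH)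
      (by linarith) hr4N hH1) ?_
    rintro ⟨x, y⟩ ⟨h1, h2, h3⟩
    exact ⟨h1, h2, lt_of_lt_of_le h3 hHh⟩

/-- `N` points of multiplicity `a` on a right triangle of twice the area less than `N a ^ 2` -/
theorem sqE_core (hSq : S_SqE) (hNE : S_NodeE) (hK : S_KTriE) (hRows : S_RowsE) {N a : ℕ} {b ρ : ℝ}
    (ha : 1 ≤ a) (hb : 0 < b) (hρ : 2 ≤ ρ) (hN : 4 * ρ < N) (hlt : b ^ 2 / ρ < N * (a : ℝ) ^ 2) :
    EmpM (Multiset.replicate N a) (RC b ρ) := by
  have hρ0 : 0 < ρ := by linarith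
  have hN0 : (0 : ℝ) < N := by linarith
  have ha0 : (0 : ℝ) < a := by exact_mod_cast ha
  obtain ⟨q, hq⟩ : ∃ q : ℝ, q = √(ρ * N) := ⟨_, rfl⟩
  have hq0 : 0 < q := by rw [hq]; exact Real.sqrt_pos.2 (by positivity)
  have hq2 : q ^ 2 = ρ * N := by rw [hq]; exact Real.sq_sqrt (by positivity)
  have h2ρ : 2 * ρ < q := by
    have h1 : (2 * ρ) ^ 2 < q ^ 2 := by
      rw [hq2]; nlinarith
    exact lt_of_pow_lt_pow_left₀ 2 hq0.le h1
  refine hSq hNE hK (η := b / q) hρ (by positivity) ?_ ?_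
  · rw [show 2 * ρ * (b / q) = (2 * ρ) * b / q by ring, div_lt_iff₀ hq0]
    nlinarith
  · have e1 : b ^ 2 / (ρ * (b / q) ^ 2) = N := by
      have : b ^ 2 / (ρ * (b / q) ^ 2) = q ^ 2 / ρ := by field_simp
      rw [this, hq2]; field_simp
    rw [e1]
    refine hRows (by
      have : (1 : ℝ) ≤ N := by linarith
      exact_mod_cast this) ?_
    have e2 : b ^ 2 / (ρ * (b / q)) = b * q / ρ := by field_simp
    rw [e2]
    have h1 : (b * q / ρ) ^ 2 < (N * (a : ℝ)) ^ 2 := by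
      have e3 : (b * q / ρ) ^ 2 = (b ^ 2 / ρ) * (q ^ 2 / ρ) := by ring
      have e4 : q ^ 2 / ρ = N := by rw [hq2]; field_simp
      rw [e3, e4]
      have e5 : (N * (a : ℝ)) ^ 2 = (N * (a : ℝ) ^ 2) * N := by ring
      rw [e5]
      exact mul_lt_mul_of_pos_right hlt hN0
    exact lt_of_pow_lt_pow_left₀ 2 (by positivity) h1

theorem blockE : S_BlockE := by
  intro hSq hNE hK hTip hRows N a h ha hah hNh ρ hρp hρ
  have ha0 : (0 : ℝ) < a := by exact_mod_cast ha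
  have ha1 : (1 : ℝ) ≤ a := by exact_mod_cast ha
  have hh0 : 0 < h := by linarith
  have hN32 : (32 : ℝ) ≤ N := by
    have h1 : 32 * (a : ℝ) ≤ N * a := by linarith
    exact le_of_mul_le_mul_right h1 ha0
  have hN0 : (0 : ℝ) < N := by linarith
  have hNa : (32 : ℝ) ≤ N * (a : ℝ) ^ 2 := by
    have : (1 : ℝ) ≤ (a : ℝ) ^ 2 := one_le_pow₀ ha1
    nlinarith
  obtain ⟨ρ0, hρ0⟩ : ∃ ρ0 : ℝ, ρ0 = (N * (a : ℝ) ^ 2 - 1) / h ^ 2 := ⟨_, rfl⟩
  have e0 : ρ0 * h ^ 2 = N * (a : ℝ) ^ 2 - 1 := by rw [hρ0]; field_simp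
  have hle : ρ ≤ ρ0 := by
    have : ρ * h ^ 2 ≤ ρ0 * h ^ 2 := by rw [e0]; exact hρ
    exact le_of_mul_le_mul_right this (by positivity)
  have hρ0p : 0 < ρ0 := by linarith
  suffices hs : EmpM (Multiset.replicate N a) (RC (ρ0 * h) ρ0) from
    Emp.mono hs (RC_mono hle hρp)
  rcases le_or_gt 2 ρ0 with hc | hc
  · refine sqE_core hSq hNE hK hRows ha (by positivity) hc ?_ ?_
    · have h2 : N * (a : ℝ) ^ 2 * 64 ≤ N * h ^ 2 := by
        have : (8 * (a : ℝ)) ^ 2 ≤ h ^ 2 := pow_le_pow_left₀ (by linarith) hah 2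
        nlinarith
      have h3 : 4 * ρ0 * h ^ 2 < N * h ^ 2 := by nlinarith
      exact lt_of_mul_lt_mul_right h3 (by positivity)
    · have e1 : (ρ0 * h) ^ 2 / ρ0 = ρ0 * h ^ 2 := by field_simp
      rw [e1, e0]
      linarith
  · refine hTip (b := ρ0 * h) (ρ := ρ0) (by positivity) hρ0p ?_
    have eb : ρ0 * h * (1 + ρ0) / ρ0 = h * (1 + ρ0) := by field_simp
    rw [eb]
    obtain ⟨r, hr⟩ : ∃ r : ℝ, r = (1 + ρ0) ^ 2 / ρ0 := ⟨_, rfl⟩
    rw [← hr]
    have er : r = ρ0 + 2 + 1 / ρ0 := by rw [hr]; field_simp; ring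
    have hinv : 1 / ρ0 ≤ N / 15 := by
      rw [div_le_div_iff₀ hρ0p (by norm_num), one_mul]
      have h1 : 15 * h ^ 2 ≤ N * ρ0 * h ^ 2 := by
        have h2 : (4 * h) ^ 2 ≤ (N * (a : ℝ)) ^ 2 := pow_le_pow_left₀ (by linarith) hNh 2
        have h3 : N * ρ0 * h ^ 2 = (N * (a : ℝ)) ^ 2 - N := by
          have : N * ρ0 * h ^ 2 = N * (ρ0 * h ^ 2) := by ring
          rw [this, e0]; ring
        have h4 : (N * (a : ℝ)) ^ 2 = N * (N * (a : ℝ) ^ 2) := by ring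
        nlinarith
      exact le_of_mul_le_mul_right h1 (by positivity)
    have hr4 : 4 ≤ r := by
      rw [hr, le_div_iff₀ hρ0p]
      nlinarith [sq_nonneg (1 - ρ0)]
    refine sqE_core hSq hNE hK hRows ha (by positivity) (by linarith) ?_ ?_
    · rw [er]; linarith
    · have e1 : (h * (1 + ρ0)) ^ 2 / r = ρ0 * h ^ 2 := by rw [hr]; field_simp
      rw [e1, e0]
      linarith

end Pool.Agent.Q24.WR
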