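import Pool.Agent.Q24.WR.Lin

/-! # Project WR, job BUMP: strips with one corner. -/

set_option autoImplicit false

namespace Pool.Agent.Q24.WR

open Finset Pool.Agent.TH176.Nag Pool.Agent.TH603.Sur Pool.Agent.TH2.NU Pool.Agent.TH641.UM
open Pool.Agent.Y205.FW Pool.Agent.Y205.MD Pool.Agent.H200W

theorem bumpS (hR : S_RowS) (hC : S_ColS) : S_BumpS := by
  intro M S l e α β y0 h hh he hα hβ hab hS hM
  have hαβ : 0 ≤ α * β := mul_nonneg hα hβ
  obtain ⟨Q, hQ⟩ := colTO (e + α * β * h) (α * β) h hh hαβ
  have hTO : SurM M {p : ℤ × ℤ | 0 < p.2 ∧ (p.2 : ℝ) < Q p.1} := by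
    refine Sur.mono hM ?_
    rintro ⟨x, y⟩ ⟨h1, h2, h3, h4⟩
    exact ⟨h2, (hQ x y (by exact_mod_cast h2)).2 ⟨h1, h3, h4⟩⟩
  refine hR l (fun y => if y0 < (y : ℝ) ∧ (y : ℝ) < y0 + h then
    e + min (α * (y - y0)) (β * (y0 + h - y)) else 0) ?_ ?_
  · intro x y h1 h2
    try simp only at h2
    split_ifs at h2 with h3
    · exact hS (x, y) h3.1 h3.2 h1 h2
    · linarith
  · refine hC (fun x => if (x : ℝ) ≤ e then y0 else y0 + (x - e) / α) Q ?_ hTO
    intro x y h1 h2
    try simp only at h1 h2
    split_ifs at h1 h2 with h3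
    · obtain ⟨h4, h5, h6⟩ := (hQ x (y - y0) (by linarith)).1 (by linarith)
      refine ⟨h4, ?_⟩
      simp only
      rw [if_pos ⟨h1, by linarith⟩]
      rcases lt_or_eq_of_le h3 with h7 | h7
      · have h8 : 0 ≤ min (α * ((y : ℝ) - y0)) (β * (y0 + h - y)) :=
          le_min (mul_nonneg hα (by linarith)) (mul_nonneg hβ (by linarith))
        linarith
      · have h8 : 0 < α * β := by
          rcases lt_or_eq_of_le hαβ with h9 | h9
          · exact h9
          · rw [← h9] at h6
            linarith
        have h9 : 0 < α := lt_of_le_of_ne hα (fun h => by rw [← h] at h8; simp at h8)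
        have h10 : 0 < β := lt_of_le_of_ne hβ (fun h => by rw [← h] at h8; simp at h8)
        have h11 : 0 < min (α * ((y : ℝ) - y0)) (β * (y0 + h - y)) :=
          lt_min (mul_pos h9 (by linarith)) (mul_pos h10 (by linarith))
        linarith
    · have h3' : e < (x : ℝ) := not_le.1 h3
      obtain ⟨h4, h5, h6⟩ := (hQ x (y - (y0 + (x - e) / α)) (by linarith)).1 (by linarith)
      have h8 : 0 < α * β := by
        rcases lt_or_eq_of_le hαβ with h9 | h9
        · exact h9
        · rw [← h9] at h6
          linarith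
      have h9 : 0 < α := lt_of_le_of_ne hα (fun h => by rw [← h] at h8; simp at h8)
      have h10 : 0 < β := lt_of_le_of_ne hβ (fun h => by rw [← h] at h8; simp at h8)
      have h11 : α * ((x - e) / α) = x - e := by field_simp
      have h12 : 0 < (x - e) / α := div_pos (by linarith) h9
      have h13 : α * β * (y - (y0 + (x - e) / α)) = α * β * (y - y0) - β * (x - e) := by
        have e1 : α * β * (y - (y0 + (x - e) / α)) =
            α * β * (y - y0) - β * (α * ((x - e) / α)) := by ring
        rw [e1, h11]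
      rw [h13] at h6
      have h14 : x - e < α * (y - y0) := by
        have := mul_lt_mul_of_pos_left h1 h9
        rw [mul_add, h11] at this
        linarith
      have h15 : x - e < β * (y0 + h - y) := by
        have h16 : α * (x - e) < α * (β * (y0 + h - y)) := by
          have h17 : (α + β) * (x - e) = x - e := by rw [hab, one_mul]
          nlinarith
        exact lt_of_mul_lt_mul_left h16 h9.le
      refine ⟨h4, ?_⟩
      simp only
      have h18 : (y : ℝ) < y0 + h := by
        by_contra h16
        have h17 : β * (y0 + h - y) ≤ 0 := mul_nonpos_of_nonneg_of_nonpos hβ (by linarith)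
        linarith
      rw [if_pos ⟨by linarith, h18⟩]
      have := lt_min h14 h15
      linarith

theorem bumpE (hR : S_RowE) (hC : S_ColE) : S_BumpE := by
  intro M S l e α β y0 h hh he hα hβ hab hS hM
  have hαβ : 0 ≤ α * β := mul_nonneg hα hβ
  obtain ⟨Q, hQ⟩ := colTC (e + α * β * h) (α * β) h hh hαβ
  have hTC : EmpM M {p : ℤ × ℤ | 0 ≤ p.2 ∧ (p.2 : ℝ) ≤ Q p.1} := by
    refine Emp.mono hM ?_
    rintro ⟨x, y⟩ ⟨h1, h2⟩
    obtain ⟨h3, h4, h5⟩ := (hQ x y (by exact_mod_cast h1)).1 h2
    exact ⟨h3, h1, h4, h5⟩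
  refine hR l (fun y => if y0 ≤ (y : ℝ) ∧ (y : ℝ) ≤ y0 + h then
    e + min (α * (y - y0)) (β * (y0 + h - y)) else -1) ?_ ?_
  · intro x y h1
    obtain ⟨h2, h3, h4, h5⟩ := hS _ h1
    refine ⟨h4, ?_⟩
    simp only at h2 h3 h4 h5 ⊢
    rw [if_pos ⟨h2, h3⟩]
    exact h5
  · refine hC (fun x => if (x : ℝ) ≤ e then y0 else y0 + (x - e) / α) Q ?_ hTC
    rintro x y ⟨h1, h2⟩
    simp only at h1 h2 ⊢
    have hx0 : (0 : ℝ) ≤ x := by exact_mod_cast h1
    split_ifs at h2 with h3
    · have h4 : (x : ℝ) - e ≤ α * (y - y0) := by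
        have := min_le_left (α * ((y : ℝ) - y0)) (β * (y0 + h - y))
        linarith
      have h5 : (x : ℝ) - e ≤ β * (y0 + h - y) := by
        have := min_le_right (α * ((y : ℝ) - y0)) (β * (y0 + h - y))
        linarith
      split_ifs with h6
      · refine ⟨h3.1, ?_⟩
        have h7 : α * β * (y - y0) ≤ α * β * h := mul_le_mul_of_nonneg_left (by linarith) hαβ
        have := (hQ x (y - y0) (by linarith [h3.1])).2 ⟨h1, by linarith [h3.2], by linarith⟩
        linarith
      · have h6' : e < (x : ℝ) := not_le.1 h6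
        have h9 : 0 < α := lt_of_le_of_ne hα (fun h => by rw [← h] at h4; linarith)
        have h10 : 0 < β := lt_of_le_of_ne hβ (fun h => by rw [← h] at h5; linarith)
        have h11 : α * ((x - e) / α) = x - e := by field_simp
        have h12 : 0 < (x - e) / α := div_pos (by linarith) h9
        have h13 : α * β * (y - (y0 + (x - e) / α)) = α * β * (y - y0) - β * (x - e) := by
          have e1 : α * β * (y - (y0 + (x - e) / α)) =
              α * β * (y - y0) - β * (α * ((x - e) / α)) := by ring
          rw [e1, h11]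
        have h14 : y0 + (x - e) / α ≤ y := by
          have : (x - e) / α ≤ y - y0 := by
            rw [div_le_iff₀ h9]; linarith
          linarith
        refine ⟨h14, ?_⟩
        have h16 : α * (x - e) ≤ α * (β * (y0 + h - y)) := mul_le_mul_of_nonneg_left h5 hα
        have h17 : (α + β) * (x - e) = x - e := by rw [hab, one_mul]
        have := (hQ x (y - (y0 + (x - e) / α)) (by linarith)).2
          ⟨h1, by linarith [h3.2], by rw [h13]; nlinarith⟩
        linarith
    · linarith

theorem bump : S_RowS → S_ColS → S_RowE → S_ColE → S_BumpS ∧ S_BumpE :=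
  fun h1 h2 h3 h4 => ⟨bumpS h1 h2, bumpE h3 h4⟩

end Pool.Agent.Q24.WR
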