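import Pool.Agent.Q24.WR.Lin

/-! # Project WR, job DIAG: flattening of a trapezoid in the direction `(1, 1)`. -/

set_option autoImplicit false

namespace Pool.Agent.Q24.WR

open Finset Pool.Agent.TH176.Nag Pool.Agent.TH603.Sur Pool.Agent.TH2.NU Pool.Agent.TH641.UM
open Pool.Agent.Y205.FW Pool.Agent.Y205.MD Pool.Agent.H200W

theorem diagS (hR : S_RowS) (hC : S_ColS) : S_DiagS := by
  intro M B s h hh hs hB hM
  obtain ⟨Q, hQ⟩ := colTO B (s + 1) h hh (by linarith)
  -- rows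
  have h1 : SurM M {p : ℤ × ℤ | 0 < p.2 ∧ (p.2 : ℝ) < (fun c : ℤ => if c ≤ 0 then h + c else Q c) p.1} := by
    refine hR (fun j => (j : ℝ) - h) (fun j => if 0 < (j : ℝ) ∧ (j : ℝ) < h then
      B + h - (s + 2) * j else 0) ?_ ?_
    · intro x y h1 h2
      try simp only at h1 h2
      split_ifs at h2 with h3
      · refine ⟨by exact_mod_cast h3.1, ?_⟩
        simp only
        split_ifs with h4
        · linarith
        · exact (hQ x y h3.1).2 ⟨by omega, h3.2, by linarith⟩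
      · linarith
    · refine Sur.mono hM ?_
      rintro ⟨x, y⟩ ⟨h1, h2, h3, h4⟩
      refine ⟨h1, ?_⟩
      simp only at h1 h2 h3 h4 ⊢
      rw [if_pos ⟨by exact_mod_cast h2, h3⟩]
      linarith
  -- columns
  have h2 : SurM M {p : ℤ × ℤ | 0 < p.2 ∧ (p.2 : ℝ) < h ∧ -p.2 < p.1 ∧
      (p.1 : ℝ) + (s + 1) * p.2 < B} := by
    refine hC (fun c => if c ≤ 0 then -(c : ℝ) else 0) (fun c : ℤ => if c ≤ 0 then h + c else Q c)
      ?_ h1
    intro x y h2 h3
    try simp only at h2 h3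
    split_ifs at h2 h3 with h4
    · have h5 : (x : ℝ) ≤ 0 := by exact_mod_cast h4
      have h6 : -x < y := by
        have : ((-x : ℤ) : ℝ) < y := by push_cast; exact h2
        exact_mod_cast this
      refine ⟨by simp only; omega, ?_, by simp only; omega, ?_⟩
      · simp only
        linarith
      · simp only
        have h7 : (s + 1) * (y : ℝ) < (s + 1) * h := mul_lt_mul_of_pos_left (by linarith) (by linarith)
        linarith
    · have h5 : (0 : ℝ) < y := h2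
      obtain ⟨h6, h7, h8⟩ := (hQ x y h5).1 (by linarith)
      have h9 : 0 < y := by exact_mod_cast h5
      exact ⟨h9, h7, by simp only; omega, h8⟩
  unfold SurM at h2 ⊢
  refine h2.comap 1 (-1) 0 1 0 0 (by norm_num) ?_
  rintro ⟨c, y⟩ ⟨h3, h4, h5, h6⟩
  simp only at h3 h4 h5 h6
  refine ⟨(c + y, y), ⟨?_, h3, h4, ?_⟩, ?_⟩
  · simp only; omega
  · simp only
    push_cast
    linarith
  · simp

theorem diagE (hR : S_RowE) (hC : S_ColE) : S_DiagE := by
  intro M B s h hh hs hB hM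
  obtain ⟨Q, hQ⟩ := colTC B (s + 1) h hh (by linarith)
  -- rows
  have h1 : EmpM M {p : ℤ × ℤ | 0 ≤ p.2 ∧ (p.2 : ℝ) ≤ (fun c : ℤ => if c ≤ 0 then h + c else Q c) p.1} := by
    refine hR (fun j => (j : ℝ) - h) (fun j => if 0 ≤ (j : ℝ) ∧ (j : ℝ) ≤ h then
      B + h - (s + 2) * j else -1) ?_ ?_
    · rintro x y ⟨h1, h2⟩
      simp only at h1 h2 ⊢
      have hy0 : (0 : ℝ) ≤ y := by exact_mod_cast h1
      split_ifs at h2 with h4
      · have h5 : (x : ℝ) ≤ 0 := by exact_mod_cast h4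
        rw [if_pos ⟨hy0, by linarith⟩]
        have h7 : (s + 1) * (y : ℝ) ≤ (s + 1) * h := mul_le_mul_of_nonneg_left (by linarith) (by linarith)
        exact ⟨by linarith, by linarith⟩
      · obtain ⟨h6, h7, h8⟩ := (hQ x y hy0).1 h2
        have h9 : (0 : ℝ) ≤ x := by exact_mod_cast h6
        rw [if_pos ⟨hy0, by linarith⟩]
        exact ⟨by linarith, by linarith⟩
    · refine Emp.mono hM ?_
      rintro ⟨x, y⟩ ⟨h1, h2⟩
      simp only at h1 h2
      have hx0 : (0 : ℝ) ≤ x := by exact_mod_cast h1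
      split_ifs at h2 with h3
      · exact ⟨h1, by exact_mod_cast h3.1, h3.2, by simp only; linarith⟩
      · linarith
  -- columns
  have h2 : EmpM M {p : ℤ × ℤ | 0 ≤ p.2 ∧ (p.2 : ℝ) ≤ h ∧ -p.2 ≤ p.1 ∧
      (p.1 : ℝ) + (s + 1) * p.2 ≤ B} := by
    refine hC (fun c => if c ≤ 0 then -(c : ℝ) else 0) (fun c : ℤ => if c ≤ 0 then h + c else Q c)
      ?_ h1
    rintro x y ⟨h2, h3, h4, h5⟩
    simp only at h2 h3 h4 h5 ⊢
    have hy0 : (0 : ℝ) ≤ y := by exact_mod_cast h2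
    split_ifs with h6
    · have h7 : ((-y : ℤ) : ℝ) ≤ x := by exact_mod_cast h4
      push_cast at h7
      exact ⟨by linarith, by linarith⟩
    · refine ⟨hy0, ?_⟩
      rw [zero_add]
      exact (hQ x y hy0).2 ⟨by omega, h3, h5⟩
  unfold EmpM at h2 ⊢
  refine h2.comap 1 (-1) 0 1 0 0 (by norm_num) ?_
  rintro ⟨x, y⟩ ⟨h3, h4, h5, h6⟩
  simp only at h3 h4 h5 h6
  refine ⟨?_, ?_, ?_, ?_⟩
  · simp only; omega
  · simp only
    push_cast
    linarith
  · simp only; omega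
  · simp only
    push_cast
    linarith

theorem diag : S_RowS → S_ColS → S_RowE → S_ColE → S_DiagS ∧ S_DiagE :=
  fun h1 h2 h3 h4 => ⟨diagS h1 h2, diagE h3 h4⟩

end Pool.Agent.Q24.WR
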