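import Pool.Agent.H200W.Stm

/-! # Project WR, job FLAT: pushing rows and columns. -/

set_option autoImplicit false

namespace Pool.Agent.Q24.WR

open Finset Pool.Agent.TH176.Nag Pool.Agent.TH603.Sur Pool.Agent.TH2.NU Pool.Agent.TH641.UM
open Pool.Agent.Y205.FW Pool.Agent.Y205.MD Pool.Agent.H200W

theorem colS : S_ColS := by
  intro M S lo q hS h
  unfold SurM at h ⊢
  have h1 : Sur (fun i : Fin M.toList.length => M.toList.get i)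
      {p : ℤ × ℤ | 0 ≤ p.2 ∧ ((p.2 + 1 : ℤ) : ℝ) < q p.1} := by
    refine h.shift 0 1 ?_
    rintro ⟨a, b⟩ ⟨h1, h2⟩
    refine ⟨?_, ?_⟩
    · simp only at h1 ⊢; omega
    · simp only [sub_add_cancel, sub_zero] at h2 ⊢; exact h2
  refine Sur_flat0 ?_ h1
  rintro ⟨a, b⟩ ⟨h2, h3⟩
  simp only at h2 h3
  refine ⟨h2, Finset.Icc (⌊lo a⌋ + 1) (⌊lo a⌋ + 1 + b), ?_, ?_⟩
  · simp only [Int.card_Icc]
    omega
  · intro y hy
    rw [Finset.mem_Icc] at hy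
    refine hS a y ?_ ?_
    · have h4 := Int.lt_floor_add_one (lo a)
      have h5 : ((⌊lo a⌋ + 1 : ℤ) : ℝ) ≤ y := by exact_mod_cast hy.1
      push_cast at h5
      linarith
    · have h4 := Int.floor_le (lo a)
      have h5 : (y : ℝ) ≤ ((⌊lo a⌋ + 1 + b : ℤ) : ℝ) := by exact_mod_cast hy.2
      push_cast at h5 h3
      linarith

theorem rowS : S_RowS := by
  intro M S lo q hS h
  have h1 : SurM M {p : ℤ × ℤ | 0 < p.2 ∧ (p.2 : ℝ) < q p.1} := by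
    unfold SurM at h ⊢
    refine h.comap 0 1 1 0 0 0 (by norm_num) ?_
    rintro ⟨a, b⟩ ⟨h1, h2⟩
    exact ⟨(b, a), ⟨h1, h2⟩, by simp⟩
  have h2 : SurM M {p : ℤ × ℤ | (p.2, p.1) ∈ S} :=
    colS lo q (fun x y h2 h3 => hS y x h2 h3) h1
  unfold SurM at h2 ⊢
  refine h2.comap 0 1 1 0 0 0 (by norm_num) ?_
  rintro ⟨a, b⟩ h3
  exact ⟨(b, a), h3, by simp⟩

theorem colE : S_ColE := by
  intro M S lo q hS h
  unfold EmpM at h ⊢
  refine Emp_flat0 ?_ h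
  intro a B hB k hk
  refine ⟨by simp, ?_⟩
  simp only
  have h1 : B ⊆ Finset.Icc ⌈lo a⌉ ⌊lo a + q a⌋ := by
    intro b hb
    obtain ⟨h2, h3⟩ := hS a b (hB b hb)
    rw [Finset.mem_Icc]
    exact ⟨Int.ceil_le.2 h2, Int.le_floor.2 h3⟩
  have h2 := Finset.card_le_card h1
  rw [Int.card_Icc] at h2
  have h3 : (k : ℤ) ≤ ⌊lo a + q a⌋ - ⌈lo a⌉ := by omega
  have h4 : ((k : ℤ) : ℝ) ≤ ((⌊lo a + q a⌋ - ⌈lo a⌉ : ℤ) : ℝ) := by exact_mod_cast h3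
  push_cast at h4
  have h5 := Int.floor_le (lo a + q a)
  have h6 := Int.le_ceil (lo a)
  push_cast
  linarith

theorem rowE : S_RowE := by
  intro M S lo q hS h
  have h1 : EmpM M {p : ℤ × ℤ | 0 ≤ p.2 ∧ (p.2 : ℝ) ≤ q p.1} := by
    unfold EmpM at h ⊢
    refine h.comap 0 1 1 0 0 0 (by norm_num) ?_
    rintro ⟨a, b⟩ ⟨h1, h2⟩
    simpa using ⟨h1, h2⟩
  have h2 : EmpM M {p : ℤ × ℤ | (p.2, p.1) ∈ S} :=
    colE lo q (fun x y h2 => hS y x h2) h1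
  unfold EmpM at h2 ⊢
  refine h2.comap 0 1 1 0 0 0 (by norm_num) ?_
  rintro ⟨a, b⟩ h3
  simpa using h3

theorem flat : S_RowS ∧ S_ColS ∧ S_RowE ∧ S_ColE := ⟨rowS, colS, rowE, colE⟩

end Pool.Agent.Q24.WR
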