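import Pool.Agent.Q24.WR.Lin

/-! # Project WR, job KTRAP: the two-sided trapezoid of a node. -/

set_option autoImplicit false

namespace Pool.Agent.Q24.WR

open Finset Pool.Agent.TH176.Nag Pool.Agent.TH603.Sur Pool.Agent.TH2.NU Pool.Agent.TH641.UM
open Pool.Agent.Y205.FW Pool.Agent.Y205.MD Pool.Agent.H200W

theorem ktrapS (hR : S_RowS) (hC : S_ColS) : S_KTrapS := by
  intro M T s y h θ K hh hs hθ hy0 hy1 hK hT hM
  have hT0 : 0 < T := by rw [hT]; positivity
  have hRO : SurM M {p : ℤ × ℤ | 0 < p.1 ∧ (p.1 : ℝ) < (fun j : ℤ => if 0 < (j : ℝ) ∧ (j : ℝ) < h then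
      T + θ * h - (s + 2 * θ) * j else 0) p.2} := by
    refine Sur.mono hM ?_
    rintro ⟨x, j⟩ ⟨h1, h2, h3⟩
    refine ⟨h1, ?_⟩
    simp only at h1 h2 h3 ⊢
    have hx0 : (0 : ℝ) < x := by exact_mod_cast h1
    have hj0 : (0 : ℝ) < j := by exact_mod_cast h2
    have h4 : (j : ℝ) < h := by
      have h5 : (s + 2 * θ) * j < (s + 2 * θ) * h := by rw [hT] at h3; linarith
      exact lt_of_mul_lt_mul_left h5 (by linarith)
    rw [if_pos ⟨hj0, h4⟩]
    linarith
  have h2 : SurM M {p : ℤ × ℤ | 0 < p.2 ∧ (p.2 : ℝ) < h ∧ -(y * T) - θ * p.2 < (p.1 : ℝ) ∧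
      (p.1 : ℝ) + (s + θ) * p.2 < (1 - y) * T} := by
    rcases lt_or_eq_of_le hθ with hθ' | hθ'
    · have hsθ : 0 < s + θ := by linarith
      refine hC (fun c => if -(y * T) ≤ (c : ℝ) then 0 else (-(y * T) - c) / θ)
        (fun c => if -(y * T) ≤ (c : ℝ) then ((1 - y) * T - c) / (s + θ) else
          h - (-(y * T) - c) / θ) ?_ ?_
      · intro x j h2 h3
        try simp only at h2 h3 ⊢
        split_ifs at h2 h3 with h4
        · have hj0 : (0 : ℝ) < j := h2
          rw [zero_add, lt_div_iff₀ hsθ] at h3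
          refine ⟨by exact_mod_cast hj0, ?_, ?_, ?_⟩
          · simp only
            have h5 : (s + θ) * (j : ℝ) < (s + θ) * h := by rw [← hT]; linarith
            exact lt_of_mul_lt_mul_left h5 hsθ.le
          · simp only
            have := mul_pos hθ' hj0
            linarith
          · simp only
            linarith
        · have h4' := not_le.1 h4
          rw [div_lt_iff₀ hθ'] at h2
          have hj0 : (0 : ℝ) < j := by
            by_contra h5
            have : (j : ℝ) * θ ≤ 0 := mul_nonpos_of_nonpos_of_nonneg (not_lt.1 h5) hθ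
            linarith
          have hjh : (j : ℝ) < h := by linarith
          refine ⟨by exact_mod_cast hj0, hjh, ?_, ?_⟩
          · simp only
            linarith
          · simp only
            have h5 : (s + θ) * (j : ℝ) < (s + θ) * h := mul_lt_mul_of_pos_left hjh hsθ
            rw [← hT] at h5
            linarith
      · refine hR (fun j => -(y * T) - θ * (h - j)) (fun j : ℤ => if 0 < (j : ℝ) ∧ (j : ℝ) < h then
          T + θ * h - (s + 2 * θ) * j else 0) ?_ hRO
        intro x j h2 h3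
        try simp only at h2 h3
        split_ifs at h3 with h4
        · refine ⟨by exact_mod_cast h4.1, ?_⟩
          simp only
          split_ifs with h5
          · rw [lt_div_iff₀ hsθ]
            linarith
          · have h6 : (-(y * T) - x) / θ < h - j := by
              rw [div_lt_iff₀ hθ']; linarith
            linarith
        · linarith
    · subst hθ'
      refine hR (fun j => -(y * T)) (fun j : ℤ => if 0 < (j : ℝ) ∧ (j : ℝ) < h then
          T + 0 * h - (s + 2 * 0) * j else 0) ?_ hRO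
      intro x j h2 h3
      try simp only at h2 h3
      split_ifs at h3 with h4
      · refine ⟨by exact_mod_cast h4.1, h4.2, ?_, ?_⟩
        · simp only
          linarith
        · simp only
          linarith
      · linarith
  unfold SurM at h2 ⊢
  refine h2.comap 1 (-K) 0 1 0 0 (by norm_num) ?_
  rintro ⟨c, j⟩ ⟨h3, h4, h5, h6⟩
  simp only at h3 h4 h5 h6
  refine ⟨(c + K * j, j), ⟨h3, h4, ?_, ?_⟩, ?_⟩
  · simp only
    push_cast
    rw [hK]
    linarith
  · simp only
    push_cast
    rw [hK]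
    linarith
  · simp

theorem ktrapE (hR : S_RowE) (hC : S_ColE) : S_KTrapE := by
  intro M T s y h θ K hh hs hθ hy0 hy1 hK hT hM
  have hT0 : 0 < T := by rw [hT]; positivity
  have hRO : EmpM M {p : ℤ × ℤ | 0 ≤ p.1 ∧ (p.1 : ℝ) ≤ (fun j : ℤ => if 0 ≤ (j : ℝ) ∧ (j : ℝ) ≤ h then
      T + θ * h - (s + 2 * θ) * j else -1) p.2} := by
    refine Emp.mono hM ?_
    rintro ⟨x, j⟩ ⟨h1, h2⟩
    simp only at h1 h2
    have hx0 : (0 : ℝ) ≤ x := by exact_mod_cast h1
    split_ifs at h2 with h3
    · exact ⟨h1, by exact_mod_cast h3.1, by simp only; linarith⟩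
    · linarith
  have h2 : EmpM M {p : ℤ × ℤ | 0 ≤ p.2 ∧ (p.2 : ℝ) ≤ h ∧ -(y * T) - θ * p.2 ≤ (p.1 : ℝ) ∧
      (p.1 : ℝ) + (s + θ) * p.2 ≤ (1 - y) * T} := by
    rcases lt_or_eq_of_le hθ with hθ' | hθ'
    · have hsθ : 0 < s + θ := by linarith
      refine hC (fun c => if -(y * T) ≤ (c : ℝ) then 0 else (-(y * T) - c) / θ)
        (fun c => if -(y * T) ≤ (c : ℝ) then ((1 - y) * T - c) / (s + θ) else
          h - (-(y * T) - c) / θ) ?_ ?_
      · rintro x j ⟨h2, h3, h4, h5⟩
        simp only at h2 h3 h4 h5 ⊢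
        have hj0 : (0 : ℝ) ≤ j := by exact_mod_cast h2
        split_ifs with h6
        · refine ⟨hj0, ?_⟩
          rw [zero_add, le_div_iff₀ hsθ]
          linarith
        · constructor
          · rw [div_le_iff₀ hθ']
            linarith
          · linarith
      · refine hR (fun j => -(y * T) - θ * (h - j)) (fun j : ℤ => if 0 ≤ (j : ℝ) ∧ (j : ℝ) ≤ h then
          T + θ * h - (s + 2 * θ) * j else -1) ?_ hRO
        rintro x j ⟨h2, h3⟩
        simp only at h2 h3 ⊢
        have hj0 : (0 : ℝ) ≤ j := by exact_mod_cast h2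
        split_ifs at h3 with h5
        · rw [le_div_iff₀ hsθ] at h3
          have hjh : (j : ℝ) ≤ h := by
            have h6 : (s + θ) * (j : ℝ) ≤ (s + θ) * h := by rw [← hT]; linarith
            exact le_of_mul_le_mul_left h6 hsθ
          rw [if_pos ⟨hj0, hjh⟩]
          have := mul_nonneg hθ (sub_nonneg.2 hjh)
          exact ⟨by linarith, by linarith⟩
        · have h5' := not_le.1 h5
          have h6 : 0 < (-(y * T) - x) / θ := div_pos (by linarith) hθ'
          have h7 : (-(y * T) - x) / θ ≤ h - j := by linarith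
          rw [div_le_iff₀ hθ'] at h7
          have hjh : (j : ℝ) ≤ h := by linarith
          rw [if_pos ⟨hj0, hjh⟩]
          have h8 : (s + θ) * (j : ℝ) ≤ (s + θ) * h := mul_le_mul_of_nonneg_left hjh hsθ.le
          rw [← hT] at h8
          exact ⟨by linarith, by linarith⟩
    · subst hθ'
      refine hR (fun j => -(y * T)) (fun j : ℤ => if 0 ≤ (j : ℝ) ∧ (j : ℝ) ≤ h then
          T + 0 * h - (s + 2 * 0) * j else -1) ?_ hRO
      rintro x j ⟨h2, h3, h4, h5⟩
      simp only at h2 h3 h4 h5 ⊢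
      have hj0 : (0 : ℝ) ≤ j := by exact_mod_cast h2
      rw [if_pos ⟨hj0, h3⟩]
      exact ⟨by linarith, by linarith⟩
  unfold EmpM at h2 ⊢
  refine h2.comap 1 (-K) 0 1 0 0 (by norm_num) ?_
  rintro ⟨x, j⟩ ⟨h3, h4, h5, h6⟩
  simp only at h3 h4 h5 h6
  refine ⟨?_, ?_, ?_, ?_⟩
  · simpa using h3
  · simpa using h4
  · push_cast
    rw [hK]
    linarith
  · push_cast
    rw [hK]
    linarith

theorem ktrap : S_RowS → S_ColS → S_RowE → S_ColE → S_KTrapS ∧ S_KTrapE :=
  fun h1 h2 h3 h4 => ⟨ktrapS h1 h2, ktrapE h3 h4⟩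

end Pool.Agent.Q24.WR
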