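import Pool.Agent.Q24.WR.Lin

/-! # Project WR, job KTRI: the two-sided triangle of a node. -/

set_option autoImplicit false

namespace Pool.Agent.Q24.WR

open Finset Pool.Agent.TH176.Nag Pool.Agent.TH603.Sur Pool.Agent.TH2.NU Pool.Agent.TH641.UM
open Pool.Agent.Y205.FW Pool.Agent.Y205.MD Pool.Agent.H200W

theorem ktriS (hR : S_RowS) (hC : S_ColS) : S_KTriS := by
  intro M s y h h1 κ K hh1 hhh hs hκ hy0 hy1 hK hM
  have hsκ : 0 < s + κ := by linarith
  have hRO : SurM M {p : ℤ × ℤ | 0 < p.1 ∧ (p.1 : ℝ) < (fun j : ℤ => if 0 < (j : ℝ) then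
      (s + κ) * h1 - ((s + κ) ^ 2 / s) * j else 0) p.2} := by
    refine Sur.mono hM ?_
    rintro ⟨x, j⟩ ⟨h1, h2, h3⟩
    refine ⟨h1, ?_⟩
    simp only at h1 h2 h3 ⊢
    have hj0 : (0 : ℝ) < j := by exact_mod_cast h2
    rw [if_pos hj0]
    linarith
  have h2 : SurM M {p : ℤ × ℤ | 0 < p.2 ∧ -(y * (s * h1)) - κ * p.2 < (p.1 : ℝ) ∧
      (p.1 : ℝ) + (s + κ) * p.2 < (1 - y) * (s * h1)} := by
    refine hC (fun c => if -(y * (s * h1)) ≤ (c : ℝ) then 0 else (-(y * (s * h1)) - c) / κ)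
      (fun c => ((1 - y) * (s * h1) - c) / (s + κ) -
        (if -(y * (s * h1)) ≤ (c : ℝ) then 0 else (-(y * (s * h1)) - c) / κ)) ?_ ?_
    · intro x j h2 h3
      try simp only at h2 h3 ⊢
      have h3' : (j : ℝ) < ((1 - y) * (s * h1) - x) / (s + κ) := by linarith
      rw [lt_div_iff₀ hsκ] at h3'
      split_ifs at h2 with h4
      · have hj0 : (0 : ℝ) < j := h2
        have := mul_pos hκ hj0
        exact ⟨by exact_mod_cast hj0, by simp only; linarith, by simp only; linarith⟩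
      · have h4' := not_le.1 h4
        rw [div_lt_iff₀ hκ] at h2
        have hj0 : (0 : ℝ) < j := by
          by_contra h5
          have : (j : ℝ) * κ ≤ 0 := mul_nonpos_of_nonpos_of_nonneg (not_lt.1 h5) hκ.le
          linarith
        exact ⟨by exact_mod_cast hj0, by simp only; linarith, by simp only; linarith⟩
    · refine hR (fun j => -(y * (s * h1)) - (s * h1 - (s + κ) * j) * κ / s)
        (fun j : ℤ => if 0 < (j : ℝ) then
        (s + κ) * h1 - ((s + κ) ^ 2 / s) * j else 0) ?_ hRO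
      intro x j h2 h3
      try simp only at h2 h3
      split_ifs at h3 with h4
      · refine ⟨by exact_mod_cast h4, ?_⟩
        have e1 : -(y * (s * h1)) - (s * h1 - (s + κ) * j) * κ / s +
            ((s + κ) * h1 - (s + κ) ^ 2 / s * j) = (1 - y) * (s * h1) - (s + κ) * j := by
          field_simp
          ring
        rw [e1] at h3
        have h5 : (s * h1 - (s + κ) * j) * κ > (-(y * (s * h1)) - x) * s := by
          rw [gt_iff_lt, ← lt_div_iff₀ hs]
          linarith
        simp only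
        split_ifs with h6
        · rw [sub_zero, lt_div_iff₀ hsκ]
          linarith
        · rw [lt_sub_iff_add_lt, ← lt_sub_iff_add_lt', div_lt_iff₀ hκ]
          have e2 : (((1 - y) * (s * h1) - x) / (s + κ) - j) * κ =
              (((1 - y) * (s * h1) - x) * κ - j * (s + κ) * κ) / (s + κ) := by
            field_simp
          rw [e2, lt_div_iff₀ hsκ]
          nlinarith
      · linarith
  unfold SurM at h2 ⊢
  refine h2.comap 1 (-K) 0 1 0 0 (by norm_num) ?_
  rintro ⟨c, j⟩ ⟨h3, h5, h6⟩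
  simp only at h3 h5 h6
  refine ⟨(c + K * j, j), ⟨h3, ?_, ?_, ?_⟩, ?_⟩
  · simp only
    have h7 : s * (j : ℝ) < s * h1 := by linarith
    exact lt_of_lt_of_le (lt_of_mul_lt_mul_left h7 hs.le) hhh
  · simp only
    push_cast
    rw [hK]
    linarith
  · simp only
    push_cast
    rw [hK]
    linarith
  · simp

theorem ktriE (hR : S_RowE) (hC : S_ColE) : S_KTriE := by
  intro M s y h h1 κ K hh1 hs hκ hy0 hy1 hK hM
  have hsκ : 0 < s + κ := by linarith
  have hRO : EmpM M {p : ℤ × ℤ | 0 ≤ p.1 ∧ (p.1 : ℝ) ≤ (fun j : ℤ => if 0 ≤ (j : ℝ) then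
      (s + κ) * h1 - ((s + κ) ^ 2 / s) * j else -1) p.2} := by
    refine Emp.mono hM ?_
    rintro ⟨x, j⟩ ⟨h1, h2⟩
    simp only at h1 h2
    have hx0 : (0 : ℝ) ≤ x := by exact_mod_cast h1
    split_ifs at h2 with h3
    · exact ⟨h1, by exact_mod_cast h3, by simp only; linarith⟩
    · linarith
  have h2 : EmpM M {p : ℤ × ℤ | 0 ≤ p.2 ∧ -(y * (s * h1)) - κ * p.2 ≤ (p.1 : ℝ) ∧
      (p.1 : ℝ) + (s + κ) * p.2 ≤ (1 - y) * (s * h1)} := by
    refine hC (fun c => if -(y * (s * h1)) ≤ (c : ℝ) then 0 else (-(y * (s * h1)) - c) / κ)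
      (fun c => ((1 - y) * (s * h1) - c) / (s + κ) -
        (if -(y * (s * h1)) ≤ (c : ℝ) then 0 else (-(y * (s * h1)) - c) / κ)) ?_ ?_
    · rintro x j ⟨h2, h4, h5⟩
      simp only at h2 h4 h5 ⊢
      have hj0 : (0 : ℝ) ≤ j := by exact_mod_cast h2
      have h3' : (j : ℝ) ≤ ((1 - y) * (s * h1) - x) / (s + κ) := by
        rw [le_div_iff₀ hsκ]; linarith
      split_ifs with h6
      · exact ⟨hj0, by linarith⟩
      · constructor
        · rw [div_le_iff₀ hκ]
          linarith
        · linarith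
    · refine hR (fun j => -(y * (s * h1)) - (s * h1 - (s + κ) * j) * κ / s)
        (fun j : ℤ => if 0 ≤ (j : ℝ) then
        (s + κ) * h1 - ((s + κ) ^ 2 / s) * j else -1) ?_ hRO
      rintro x j ⟨h2, h3⟩
      simp only at h2 h3 ⊢
      have hj0 : (0 : ℝ) ≤ j := by exact_mod_cast h2
      rw [if_pos hj0]
      have e1 : -(y * (s * h1)) - (s * h1 - (s + κ) * j) * κ / s +
          ((s + κ) * h1 - (s + κ) ^ 2 / s * j) = (1 - y) * (s * h1) - (s + κ) * j := by
        field_simp
        ring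
      rw [e1]
      split_ifs at h3 with h6
      · rw [sub_zero, le_div_iff₀ hsκ] at h3
        have h7 : 0 ≤ (s * h1 - (s + κ) * j) * κ / s := by
          apply div_nonneg _ hs.le
          apply mul_nonneg _ hκ.le
          linarith
        exact ⟨by linarith, by linarith⟩
      · have h6' := not_le.1 h6
        have h7 : 0 < (-(y * (s * h1)) - x) / κ := div_pos (by linarith) hκ
        have h8 : (j : ℝ) ≤ ((1 - y) * (s * h1) - x) / (s + κ) := by linarith
        rw [le_div_iff₀ hsκ] at h8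
        have h9 : (-(y * (s * h1)) - x) / κ ≤ ((1 - y) * (s * h1) - x) / (s + κ) - j := by linarith
        have e2 : ((1 - y) * (s * h1) - x) / (s + κ) - j =
            (((1 - y) * (s * h1) - x) - j * (s + κ)) / (s + κ) := by
          field_simp
        rw [e2, div_le_div_iff₀ hκ hsκ] at h9
        have h10 : (-(y * (s * h1)) - x) * s ≤ (s * h1 - (s + κ) * j) * κ := by nlinarith
        have h11 : -(y * (s * h1)) - x ≤ (s * h1 - (s + κ) * j) * κ / s := by
          rw [le_div_iff₀ hs]; exact h10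
        exact ⟨by linarith, by linarith⟩
  unfold EmpM at h2 ⊢
  refine h2.comap 1 (-K) 0 1 0 0 (by norm_num) ?_
  rintro ⟨x, j⟩ ⟨h3, h4, h5, h6⟩
  simp only at h3 h4 h5 h6
  refine ⟨?_, ?_, ?_⟩
  · simpa using h3
  · push_cast
    rw [hK]
    linarith
  · push_cast
    rw [hK]
    linarith

theorem ktri : S_RowS → S_ColS → S_RowE → S_ColE → S_KTriS ∧ S_KTriE :=
  fun h1 h2 h3 h4 => ⟨ktriS h1 h2, ktriE h3 h4⟩

end Pool.Agent.Q24.WR
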