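import Pool.Agent.Q24.WR.Block

/-! # Project WR, jobs RARES, CORNERE, RAREE: rare groups. -/

set_option autoImplicit false

namespace Pool.Agent.Q24.WR

open Finset Pool.Agent.TH176.Nag Pool.Agent.TH603.Sur Pool.Agent.TH2.NU Pool.Agent.TH641.UM
open Pool.Agent.Y205.FW Pool.Agent.Y205.MD Pool.Agent.H200W

theorem rareS : S_RareS := by
  intro hNode N u k l h hk hu hl h2N hkl ρ hρ
  obtain ⟨U, hU⟩ : ∃ U : ℝ, U = (u : ℝ) + 1 := ⟨_, rfl⟩
  obtain ⟨V, hV⟩ : ∃ V : ℝ, V = (l : ℝ) + 1 := ⟨_, rfl⟩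
  have hU1 : 1 ≤ U := by rw [hU]; linarith [show (0 : ℝ) ≤ u from Nat.cast_nonneg _]
  have hV1 : 1 ≤ V := by rw [hV]; linarith [show (0 : ℝ) ≤ l from Nat.cast_nonneg _]
  have hk1 : (1 : ℝ) ≤ k := by exact_mod_cast hk
  have hk0 : (0 : ℝ) < k := by linarith
  rw [← hU] at hu h2N hkl hρ
  rw [← hV] at hl hkl hρ
  have hh16 : 16 ≤ h := by linarith
  have hh0 : 0 < h := by linarith
  have hN512 : (512 : ℝ) ≤ N := by
    have h1 : 512 * U ^ 2 ≤ N * U ^ 2 := by
      have : (16 * U) ^ 2 ≤ h ^ 2 := pow_le_pow_left₀ (by linarith) hu 2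
      nlinarith
    exact le_of_mul_le_mul_right h1 (by positivity)
  have hN0 : (0 : ℝ) < N := by linarith
  obtain ⟨ρ0, hρ0⟩ : ∃ ρ0 : ℝ, ρ0 = (N * U ^ 2 + k * V ^ 2 + 4 * h) / h ^ 2 := ⟨_, rfl⟩
  have e0 : ρ0 * h ^ 2 = N * U ^ 2 + k * V ^ 2 + 4 * h := by rw [hρ0]; field_simp
  have hρ0p : 0 < ρ0 := by rw [hρ0]; positivity
  have hle : ρ0 ≤ ρ := by
    have : ρ0 * h ^ 2 ≤ ρ * h ^ 2 := by rw [e0]; exact hρ
    exact le_of_mul_le_mul_right this (by positivity)
  suffices hs : SurM (Multiset.replicate N u + Multiset.replicate k l) (RO (ρ0 * h) ρ0) from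
    Sur.mono hs (RO_mono hle hρ0p)
  have hkV : 0 < k * V ^ 2 := by positivity
  have hρ2 : 2 ≤ ρ0 := by
    have : 2 * h ^ 2 ≤ ρ0 * h ^ 2 := by rw [e0]; linarith
    exact le_of_mul_le_mul_right this (by positivity)
  -- the height at the node
  obtain ⟨H, hH⟩ : ∃ H : ℝ, H = (2 * (ρ0 * h) - 1) / (4 * ρ0) := ⟨_, rfl⟩
  have hT : 0 < 2 * (ρ0 * h) - 1 := by nlinarith
  have hH0 : 0 < H := by rw [hH]; positivity
  have eH : 4 * ρ0 * H = 2 * (ρ0 * h) - 1 := by rw [hH]; field_simp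
  have eH2 : H = h / 2 - 1 / (4 * ρ0) := by rw [hH]; field_simp; ring
  have hi0 : 0 < 1 / (4 * ρ0) := by positivity
  have hi8 : 1 / (4 * ρ0) ≤ 1 / 8 := one_div_le_one_div_of_le (by norm_num) (by linarith)
  have hHh : H ≤ h / 2 := by linarith
  have hH7 : 7 * h / 16 ≤ H := by linarith
  have hVH : V < H := by linarith
  obtain ⟨y, hy⟩ : ∃ y : ℝ, y = k * V / (2 * (ρ0 * h) - 1) := ⟨_, rfl⟩
  have hy0 : 0 < y := by rw [hy]; positivity
  have hy1 : y < 1 := by
    rw [hy, div_lt_one hT]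
    have h1 : k * V * h < (2 * (ρ0 * h) - 1) * h := by
      have h2 : (2 * (ρ0 * h) - 1) * h = 2 * (ρ0 * h ^ 2) - h := by ring
      rw [h2, e0]
      have : 0 < N * U ^ 2 := by positivity
      linarith
    exact lt_of_mul_lt_mul_right h1 hh0.le
  obtain ⟨Y, hY⟩ : ∃ Y : ℝ, Y = k * V / H := ⟨_, rfl⟩
  have hYy : Y = 4 * ρ0 * y := by rw [hY, hy, ← eH]; field_simp
  obtain ⟨X, hX⟩ : ∃ X : ℝ, X = 4 * ρ0 * (1 - y) := ⟨_, rfl⟩
  have hX0 : 0 < X := by rw [hX]; exact mul_pos (by linarith) (by linarith)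
  obtain ⟨Z, hZ⟩ : ∃ Z : ℝ, Z = k * V * (H - V) / H ^ 2 := ⟨_, rfl⟩
  have hZ0 : 0 < Z := by rw [hZ]; exact div_pos (mul_pos (by positivity) (by linarith)) (by positivity)
  have hZY : Z = Y - k * V ^ 2 / H ^ 2 := by rw [hZ, hY]; field_simp
  obtain ⟨d, hd⟩ : ∃ d : ℝ, d = (N * U ^ 2 + H) / H ^ 2 := ⟨_, rfl⟩
  have ed : d * H ^ 2 = N * U ^ 2 + H := by rw [hd]; field_simp
  have hd2 : 2 ≤ d := by
    have h1 : 2 * H ^ 2 ≤ d * H ^ 2 := by
      rw [ed]
      have : H ^ 2 ≤ (h / 2) ^ 2 := pow_le_pow_left₀ hH0.le hHh 2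
      nlinarith
    exact le_of_mul_le_mul_right h1 (by positivity)
  have hd4 : 4 * d ≤ N := by
    have h1 : 4 * d * H ^ 2 ≤ N * H ^ 2 := by
      have h2 : 4 * d * H ^ 2 = 4 * (N * U ^ 2) + 4 * H := by linarith
      rw [h2]
      have h3 : 7 * U ≤ H := by linarith
      have h4 : (7 * U) ^ 2 ≤ H ^ 2 := pow_le_pow_left₀ (by linarith) h3 2
      have h5 : N * (7 * U) ^ 2 ≤ N * H ^ 2 := mul_le_mul_of_nonneg_left h4 hN0.le
      have h6 : 512 * H ^ 2 ≤ N * H ^ 2 := mul_le_mul_of_nonneg_right hN512 (sq_nonneg _)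
      have h7 : H ≤ H ^ 2 := by nlinarith
      nlinarith
    exact le_of_mul_le_mul_right h1 (by positivity)
  have hdX : d - Z ≤ X := by
    have h1 : d * H ^ 2 ≤ (Z + X) * H ^ 2 := by
      have h2 : Z + X = 4 * ρ0 - k * V ^ 2 / H ^ 2 := by
        rw [hZY, hX, hYy]; ring
      have h3 : (Z + X) * H ^ 2 = 4 * ρ0 * H ^ 2 - k * V ^ 2 := by
        rw [h2]; field_simp
      have h4 : 4 * ρ0 * H ^ 2 = ρ0 * h ^ 2 - h + 1 / (4 * ρ0) := by
        rw [hH]; field_simp; ring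
      rw [h3, h4, ed, e0]
      linarith
    have := le_of_mul_le_mul_right h1 (by positivity : (0 : ℝ) < H ^ 2)
    linarith
  -- the block
  have hdon := Sur_donor stSeq (N := N) (u := u) (H := H) (ρ := d) (μ := Z) (ν := d - Z) (-(Z * H))
    (by rw [← hU]; exact ed) hd2 (by ring) hd4 (by linarith)
  have hblk : Sur (fun _ : Fin N => u) (RegO (-(Z * H)) (X * H) Z X) := by
    refine hdon.mono ?_
    rintro ⟨p, q⟩ ⟨h1, h2, h3⟩
    simp only at h1 h2 h3
    have h4 : 0 < d * (H - q) := by linarith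
    have h5 : 0 < H - q := by
      by_contra hc
      have := mul_nonpos_of_nonneg_of_nonpos (by linarith : 0 ≤ d) (not_lt.1 hc)
      linarith
    have h6 : (d - Z) * (H - q) ≤ X * (H - q) := mul_le_mul_of_nonneg_right hdX h5.le
    exact ⟨h1, h2, by simp only; linarith⟩
  have hcor := Pool.Agent.Y839.FW.corner (w := fun _ : Fin N => u) (k := k) (l := l) (H := H) (X := X)
    hk (by rw [← hV]; exact hVH) hX0 (by rw [← hV, ← hZ]; exact hblk)
  rw [← hV, ← hY] at hcor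
  have hms : ms (Sum.elim (fun _ : Fin k => l) (fun _ : Fin N => u)) =
      Multiset.replicate N u + Multiset.replicate k l := by
    rw [ms_sum, ms_rep, ms_rep, add_comm]
  have hcorM : SurM (Multiset.replicate N u + Multiset.replicate k l)
      (RegO (-(Y * H)) (X * H) Y X) := (SurM_iff hms _).2 hcor
  have hWO : SurM (Multiset.replicate N u + Multiset.replicate k l)
      (WO (2 * (ρ0 * h) - 1) (4 * ρ0) y (h / 2)) := by
    refine Sur.mono hcorM ?_
    rintro ⟨p, q⟩ ⟨h1, h2, h3⟩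
    simp only at h1 h2 h3
    have h4 : 0 < (X + Y) * (H - q) := by linarith
    have hXY : 0 < X + Y := by
      have : 0 < Y := by rw [hY]; positivity
      linarith
    have h5 : 0 < H - q := by
      by_contra hc
      have := mul_nonpos_of_nonneg_of_nonpos hXY.le (not_lt.1 hc)
      linarith
    have e1 : 2 * (ρ0 * h) - 1 - 4 * ρ0 * q = 4 * ρ0 * (H - q) := by rw [← eH]; ring
    refine ⟨h1, by simp only; linarith, ?_, ?_⟩
    · simp only
      rw [e1]
      have e2 : y * (4 * ρ0 * (H - q)) = Y * (H - q) := by rw [hYy]; ring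
      rw [e2]
      linarith
    · simp only
      rw [e1]
      have e2 : (1 - y) * (4 * ρ0 * (H - q)) = X * (H - q) := by rw [hX]; ring
      rw [e2]
      linarith
  refine Sur.mono (hNode hh0 hρ2 hy0 hy1 hWO) ?_
  rintro ⟨p, q⟩ ⟨h1, h2, h3, h4⟩
  exact ⟨h1, h2, h4⟩

theorem cornerE : S_CutE → S_RowE → S_ColE → S_CornerE := by
  intro _ _ hCol M k l H X hk hl hlH hX hM
  have hk1 : (1 : ℝ) ≤ k := by exact_mod_cast hk
  have hl1 : (1 : ℝ) ≤ l := by exact_mod_cast hl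
  have hk0 : (0 : ℝ) < k := by linarith
  have hl0 : (0 : ℝ) < l := by linarith
  have hH0 : 0 < H := by linarith
  obtain ⟨Y, hY⟩ : ∃ Y : ℝ, Y = k * l / H := ⟨_, rfl⟩
  obtain ⟨Z, hZ⟩ : ∃ Z : ℝ, Z = k * l * (H - l) / H ^ 2 := ⟨_, rfl⟩
  rw [← hZ] at hM
  rw [← hY]
  have hY0 : 0 < Y := by rw [hY]; positivity
  have hYk : Y < k := by
    rw [hY, div_lt_iff₀ hH0]
    exact mul_lt_mul_of_pos_left hlH hk0
  have hZ0 : 0 < Z := by
    rw [hZ]; exact div_pos (mul_pos (by positivity) (by linarith)) (by positivity)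
  have hYH : Y * H = k * l := by rw [hY]; field_simp
  have hZe : Z * k = Y * (k - Y) := by rw [hZ, hY]; field_simp
  have hXY : 0 < X + Y := by linarith
  -- the region to the right of the group
  have hR : EmpM M {m : ℤ × ℤ | m ∈ Reg (-(Y * H)) (X * H) Y X ∧
      -(Y * (H - m.2)) + k * max 0 ((l : ℝ) - m.2) ≤ (m.1 : ℝ)} := by
    refine hCol (fun x => if 0 ≤ x then 0 else -(x : ℝ) / (k - Y))
      (fun x => if 0 ≤ x then H - x / X else H + x / Z) ?_ ?_
    · rintro x y ⟨⟨h1, h2, h3⟩, h4⟩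
      simp only at h1 h2 h3 h4
      have hy0 : (0 : ℝ) ≤ y := by exact_mod_cast h1
      have hyH : (y : ℝ) ≤ H := by
        have h5 : 0 ≤ (X + Y) * (H - y) := by linarith
        have := nonneg_of_mul_nonneg_right h5 hXY
        linarith
      by_cases hx : 0 ≤ x
      · simp only [hx, if_true]
        refine ⟨hy0, ?_⟩
        have : (x : ℝ) / X ≤ H - y := by rw [div_le_iff₀ hX]; linarith
        linarith
      · simp only [hx, if_false]
        have hx' : (x : ℝ) < 0 := by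
          have : x < 0 := by omega
          exact_mod_cast this
        have hm0 : (0 : ℝ) ≤ k * max 0 ((l : ℝ) - y) := mul_nonneg hk0.le (le_max_left _ _)
        have h5 : -(x : ℝ) ≤ (k - Y) * y := by
          rcases le_total (y : ℝ) l with h6 | h6
          · have h7 := mul_le_mul_of_nonneg_left (le_max_right (0 : ℝ) ((l : ℝ) - y)) hk0.le
            nlinarith
          · have h7 : (k - Y) * l ≤ (k - Y) * y := mul_le_mul_of_nonneg_left h6 (by linarith)
            have h8 : Y * l ≤ Y * y := mul_le_mul_of_nonneg_left h6 hY0.le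
            nlinarith
        have h6 : -(x : ℝ) / (k - Y) ≤ y := by
          rw [div_le_iff₀ (by linarith)]; linarith
        refine ⟨h6, ?_⟩
        have h7 : -(x : ℝ) / Y ≤ H - y := by rw [div_le_iff₀ hY0]; linarith
        have h8 : -(x : ℝ) / (k - Y) + (H + x / Z) = H - (-(x : ℝ)) / Y := by
          have hkY : (k : ℝ) - Y ≠ 0 := by linarith
          have e : (x : ℝ) / Z = x * k / (Y * (k - Y)) := by
            rw [← hZe]; field_simp
          rw [e]
          field_simp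
          ring
        rw [h8]
        linarith
    · refine Emp.mono hM ?_
      rintro ⟨x, y⟩ ⟨h1, h2⟩
      simp only at h1 h2
      by_cases hx : 0 ≤ x
      · simp only [hx, if_true] at h2
        have hx0 : (0 : ℝ) ≤ x := by exact_mod_cast hx
        have h3 : (x : ℝ) / X ≤ H - y := by linarith
        have h5 : 0 ≤ (x : ℝ) / X := div_nonneg hx0 hX.le
        rw [div_le_iff₀ hX] at h3
        have h4 : 0 ≤ Z * (H - y) := mul_nonneg hZ0.le (by linarith)
        exact ⟨h1, by simp only; linarith, by simp only; linarith⟩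
      · simp only [hx, if_false] at h2
        have hx' : (x : ℝ) < 0 := by
          have : x < 0 := by omega
          exact_mod_cast this
        have h3 : -(x : ℝ) / Z ≤ H - y := by
          have : (x : ℝ) / Z = -(-(x : ℝ) / Z) := by ring
          linarith
        have h5 : 0 < -(x : ℝ) / Z := div_pos (by linarith) hZ0
        have h4 : 0 ≤ X * (H - y) := mul_nonneg hX.le (by linarith)
        rw [div_le_iff₀ hZ0] at h3
        exact ⟨h1, by simp only; linarith, by simp only; linarith⟩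
  -- the finiteness
  have hfin : (Reg (-(Y * H)) (X * H) Y X).Finite := by
    refine Set.Finite.subset (Set.finite_Icc ((-⌈Y * H⌉, 0) : ℤ × ℤ) (⌊X * H⌋, ⌊H⌋)) ?_
    rintro ⟨x, y⟩ ⟨h1, h2, h3⟩
    simp only at h1 h2 h3
    have hy0 : (0 : ℝ) ≤ y := by exact_mod_cast h1
    have hyH : (y : ℝ) ≤ H := by
      have h5 : 0 ≤ (X + Y) * (H - y) := by linarith
      have := nonneg_of_mul_nonneg_right h5 hXY
      linarith
    have h4 := mul_nonneg hY0.le hy0
    have h5 := mul_nonneg hX.le hy0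
    rw [Set.mem_Icc, Prod.mk_le_mk, Prod.mk_le_mk]
    refine ⟨⟨?_, h1⟩, Int.le_floor.2 (by linarith), Int.le_floor.2 hyH⟩
    have h6 : ((-x : ℤ) : ℝ) ≤ (⌈Y * H⌉ : ℤ) := by
      push_cast
      have := Int.le_ceil (Y * H)
      linarith
    have h7 : -x ≤ ⌈Y * H⌉ := by exact_mod_cast h6
    omega
  have hE := Pool.Agent.TH102.DP.Emp_absorbs hR k (fun _ => l) (Reg (-(Y * H)) (X * H) Y X) hfin
    (fun m hm => hm.1) (fun t => ⌈-(Y * (H - t))⌉) (by
      rintro ⟨x, y⟩ ⟨h1, h2, h3⟩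
      simp only at h1 h2 h3 ⊢
      rw [Int.ceil_le]
      linarith) (by
      rintro ⟨x, y⟩ hm hle
      refine ⟨hm, ?_⟩
      simp only at hle ⊢
      rw [sum_const, card_univ, Fintype.card_fin, nsmul_eq_mul] at hle
      have h1 := Int.le_ceil (-(Y * (H - (y : ℝ))))
      have h2 : ((⌈-(Y * (H - (y : ℝ)))⌉ + (k : ℤ) * max 0 ((l : ℤ) - y) : ℤ) : ℝ) ≤ (x : ℝ) := by
        exact_mod_cast hle
      push_cast at h2
      linarith)
  refine (EmpM_iff (w := Sum.elim (fun _ : Fin k => l) (fun i : Fin M.toList.length => M.toList.get i))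
    ?_ _).2 hE
  rw [ms_sum, ms_rep, ms_toList]

theorem rareE : S_RareE := by
  intro hNode hCorner hRow hBlock N u k l h hk hu1 hl1 hu hl h3N hkl ρ hρp hρ
  have hk1 : (1 : ℝ) ≤ k := by exact_mod_cast hk
  have hk0 : (0 : ℝ) < k := by linarith
  have hu1' : (1 : ℝ) ≤ u := by exact_mod_cast hu1
  have hl1' : (1 : ℝ) ≤ l := by exact_mod_cast hl1
  have hh0 : 0 < h := by linarith
  have hkl2 : 1 ≤ k * (l : ℝ) ^ 2 := by
    have : (1 : ℝ) ≤ (l : ℝ) ^ 2 := one_le_pow₀ hl1'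
    nlinarith
  obtain ⟨ρ0, hρ0⟩ : ∃ ρ0 : ℝ, ρ0 = (N * (u : ℝ) ^ 2 + k * (l : ℝ) ^ 2 - 1) / h ^ 2 := ⟨_, rfl⟩
  have e0 : ρ0 * h ^ 2 = N * (u : ℝ) ^ 2 + k * (l : ℝ) ^ 2 - 1 := by rw [hρ0]; field_simp
  have hle : ρ ≤ ρ0 := by
    have : ρ * h ^ 2 ≤ ρ0 * h ^ 2 := by rw [e0]; exact hρ
    exact le_of_mul_le_mul_right this (by positivity)
  have hρ0p : 0 < ρ0 := by linarith
  suffices hs : EmpM (Multiset.replicate N u + Multiset.replicate k l) (RC (ρ0 * h) ρ0) from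
    Emp.mono hs (RC_mono hle hρp)
  have hρ2 : 2 ≤ ρ0 := by
    have : 2 * h ^ 2 ≤ ρ0 * h ^ 2 := by rw [e0]; nlinarith [sq_nonneg h]
    exact le_of_mul_le_mul_right this (by positivity)
  obtain ⟨H, hH⟩ : ∃ H : ℝ, H = h / 2 := ⟨_, rfl⟩
  have hH0 : 0 < H := by rw [hH]; positivity
  obtain ⟨y, hy⟩ : ∃ y : ℝ, y = k * l / (2 * (ρ0 * h)) := ⟨_, rfl⟩
  have hy0 : 0 < y := by rw [hy]; positivity
  have hy1 : y < 1 := by
    rw [hy, div_lt_one (by positivity)]
    have h1 : k * l * h < 2 * (ρ0 * h) * h := by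
      have h2 : 2 * (ρ0 * h) * h = 2 * (ρ0 * h ^ 2) := by ring
      rw [h2, e0]
      have : 0 < h ^ 2 := by positivity
      linarith
    exact lt_of_mul_lt_mul_right h1 hh0.le
  obtain ⟨Y, hY⟩ : ∃ Y : ℝ, Y = k * l / H := ⟨_, rfl⟩
  have hYy : Y = 4 * ρ0 * y := by rw [hY, hy, hH]; field_simp; ring
  obtain ⟨X, hX⟩ : ∃ X : ℝ, X = 4 * ρ0 * (1 - y) := ⟨_, rfl⟩
  have hX0 : 0 < X := by rw [hX]; exact mul_pos (by linarith) (by linarith)
  obtain ⟨Z, hZ⟩ : ∃ Z : ℝ, Z = k * l * (H - l) / H ^ 2 := ⟨_, rfl⟩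
  have hlH : (l : ℝ) < H := by rw [hH]; linarith
  have hZ0 : 0 < Z := by
    rw [hZ]; exact div_pos (mul_pos (by positivity) (by linarith)) (by positivity)
  have hZY : Z = Y - k * l ^ 2 / H ^ 2 := by rw [hZ, hY]; field_simp
  have hZX : (Z + X) * H ^ 2 = N * (u : ℝ) ^ 2 - 1 := by
    have h2 : Z + X = 4 * ρ0 - k * l ^ 2 / H ^ 2 := by rw [hZY, hX, hYy]; ring
    have h3 : (Z + X) * H ^ 2 = 4 * ρ0 * H ^ 2 - k * l ^ 2 := by rw [h2]; field_simp
    have h4 : 4 * ρ0 * H ^ 2 = ρ0 * h ^ 2 := by rw [hH]; ring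
    rw [h3, h4, e0]
    ring
  have hb := hBlock (N := N) (a := u) (h := H) hu1 (by rw [hH]; linarith) (by
    have h1 : 4 * H * u ≤ N * u * u := by
      have : N * (u : ℝ) * u = N * (u : ℝ) ^ 2 := by ring
      rw [this, hH]
      nlinarith
    exact le_of_mul_le_mul_right h1 (by linarith)) (Z + X) (by linarith) (le_of_eq hZX)
  have hrow : EmpM (Multiset.replicate N u) (Reg (-(Z * H)) (X * H) Z X) := by
    refine hRow (fun j => -(Z * (H - j))) (fun j => if 0 ≤ j then (Z + X) * (H - j) else -1) ?_ ?_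
    · rintro p q ⟨h1, h2, h3⟩
      simp only at h1 h2 h3 ⊢
      rw [if_pos h1]
      exact ⟨by linarith, by linarith⟩
    · refine Emp.mono hb ?_
      rintro ⟨p, q⟩ ⟨h1, h2⟩
      simp only at h1 h2
      have hp0 : (0 : ℝ) ≤ p := by exact_mod_cast h1
      split_ifs at h2 with h3
      · exact ⟨h1, h3, by simp only; linarith⟩
      · linarith
  have hcor := hCorner (M := Multiset.replicate N u) (k := k) (l := l) (H := H) (X := X) hk hl1 hlH hX0
    (by rw [← hZ]; exact hrow)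
  rw [← hY, add_comm] at hcor
  have hWC : EmpM (Multiset.replicate N u + Multiset.replicate k l)
      (WC (2 * (ρ0 * h)) (4 * ρ0) y (h / 2)) := by
    refine Emp.mono hcor ?_
    rintro ⟨p, q⟩ ⟨h1, h2, h3, h4⟩
    simp only at h1 h2 h3 h4
    have e1 : 2 * (ρ0 * h) - 4 * ρ0 * q = 4 * ρ0 * (H - q) := by rw [hH]; ring
    rw [e1] at h3 h4
    have e2 : y * (4 * ρ0 * (H - q)) = Y * (H - q) := by rw [hYy]; ring
    have e3 : (1 - y) * (4 * ρ0 * (H - q)) = X * (H - q) := by rw [hX]; ring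
    rw [e2] at h3
    rw [e3] at h4
    exact ⟨h1, by simp only; linarith, by simp only; linarith⟩
  refine Emp.mono (hNode (by positivity) hh0 hρ2 hy0 hy1 hWC) ?_
  rintro ⟨p, q⟩ ⟨h1, h2, h3⟩
  simp only at h1 h2 h3
  refine ⟨h1, h2, ?_, h3⟩
  simp only
  have hp0 : (0 : ℝ) ≤ p := by exact_mod_cast h1
  have h4 : ρ0 * (q : ℝ) ≤ ρ0 * h := by linarith
  exact le_of_mul_le_mul_left h4 hρ0p

end Pool.Agent.Q24.WR
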