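import Pool.Agent.H200W.Stm

/-! # Project WR, job LIN: strips with rows of linear length. -/

set_option autoImplicit false

namespace Pool.Agent.Q24.WR

open Finset Pool.Agent.TH176.Nag Pool.Agent.TH603.Sur Pool.Agent.TH2.NU Pool.Agent.TH641.UM
open Pool.Agent.Y205.FW Pool.Agent.Y205.MD Pool.Agent.H200W

/-- the columns of an open trapezoid -/
theorem colTO (B s h : ℝ) (_ : 0 < h) (hs : 0 ≤ s) : ∃ Q : ℤ → ℝ, ∀ (x : ℤ) (t : ℝ), 0 < t →
    (t < Q x ↔ 0 < x ∧ t < h ∧ (x : ℝ) + s * t < B) := by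
  refine ⟨fun x => if 0 < x ∧ (x : ℝ) < B then min h (if s = 0 then h else (B - x) / s) else 0, ?_⟩
  intro x t ht
  simp only
  have hst : 0 ≤ s * t := mul_nonneg hs ht.le
  split_ifs with h1 h2
  · rw [h2, min_self]
    constructor
    · intro h3
      exact ⟨h1.1, h3, by rw [zero_mul, add_zero]; exact h1.2⟩
    · intro h3
      exact h3.2.1
  · have h3 : 0 < s := lt_of_le_of_ne hs (Ne.symm h2)
    rw [lt_min_iff, lt_div_iff₀ h3]
    constructor
    · intro h4
      exact ⟨h1.1, h4.1, by linarith [h4.2, mul_comm s t]⟩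
    · intro h4
      exact ⟨h4.2.1, by linarith [h4.2.2, mul_comm s t]⟩
  · constructor
    · intro h2
      linarith
    · intro h2
      exact absurd ⟨h2.1, by linarith [h2.2.2]⟩ h1

/-- the columns of a closed trapezoid -/
theorem colTC (B s h : ℝ) (_ : 0 < h) (hs : 0 ≤ s) : ∃ Q : ℤ → ℝ, ∀ (x : ℤ) (t : ℝ), 0 ≤ t →
    (t ≤ Q x ↔ 0 ≤ x ∧ t ≤ h ∧ (x : ℝ) + s * t ≤ B) := by
  refine ⟨fun x => if 0 ≤ x ∧ (x : ℝ) ≤ B then min h (if s = 0 then h else (B - x) / s) else -1, ?_⟩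
  intro x t ht
  simp only
  have hst : 0 ≤ s * t := mul_nonneg hs ht
  split_ifs with h1 h2
  · rw [h2, min_self]
    constructor
    · intro h3
      exact ⟨h1.1, h3, by rw [zero_mul, add_zero]; exact h1.2⟩
    · intro h3
      exact h3.2.1
  · have h3 : 0 < s := lt_of_le_of_ne hs (Ne.symm h2)
    rw [le_min_iff, le_div_iff₀ h3]
    constructor
    · intro h4
      exact ⟨h1.1, h4.1, by linarith [h4.2, mul_comm s t]⟩
    · intro h4
      exact ⟨h4.2.1, by linarith [h4.2.2, mul_comm s t]⟩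
  · constructor
    · intro h2
      linarith
    · intro h2
      exact absurd ⟨h2.1, by linarith [h2.2.2]⟩ h1

theorem linS (hR : S_RowS) (hC : S_ColS) : S_LinS := by
  intro M S l B s y0 h hh hs hB hS hM
  obtain ⟨Q, hQ⟩ := colTO B s h hh hs
  have hTO : SurM M {p : ℤ × ℤ | 0 < p.2 ∧ (p.2 : ℝ) < Q p.1} := by
    refine Sur.mono hM ?_
    rintro ⟨x, y⟩ ⟨h1, h2, h3, h4⟩
    exact ⟨h2, (hQ x y (by exact_mod_cast h2)).2 ⟨h1, h3, h4⟩⟩
  rcases hS with hS | hS
  · refine hR l (fun y => if y0 < (y : ℝ) ∧ (y : ℝ) < y0 + h then B - s * (y - y0) else 0) ?_ ?_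
    · intro x y h1 h2
      split_ifs at h2 with h3
      · exact hS (x, y) h3.1 h3.2 h1 h2
      · linarith
    · refine hC (fun _ => y0) Q ?_ hTO
      intro x y h1 h2
      obtain ⟨h3, h4, h5⟩ := (hQ x (y - y0) (by linarith)).1 (by linarith)
      refine ⟨h3, ?_⟩
      simp only
      rw [if_pos ⟨h1, by linarith⟩]
      linarith
  · refine hR l (fun y => if y0 < (y : ℝ) ∧ (y : ℝ) < y0 + h then B - s * (y0 + h - y) else 0) ?_ ?_
    · intro x y h1 h2
      split_ifs at h2 with h3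
      · exact hS (x, y) h3.1 h3.2 h1 h2
      · linarith
    · refine hC (fun x => y0 + h - Q x) Q ?_ hTO
      intro x y h1 h2
      obtain ⟨h3, h4, h5⟩ := (hQ x (y0 + h - y) (by linarith)).1 (by linarith)
      refine ⟨h3, ?_⟩
      simp only
      rw [if_pos ⟨by linarith, by linarith⟩]
      linarith

theorem linE (hR : S_RowE) (hC : S_ColE) : S_LinE := by
  intro M S l B s y0 h hh hs hB hS hM
  obtain ⟨Q, hQ⟩ := colTC B s h hh hs
  have hTC : EmpM M {p : ℤ × ℤ | 0 ≤ p.2 ∧ (p.2 : ℝ) ≤ Q p.1} := by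
    refine Emp.mono hM ?_
    rintro ⟨x, y⟩ ⟨h1, h2⟩
    obtain ⟨h3, h4, h5⟩ := (hQ x y (by exact_mod_cast h1)).1 h2
    exact ⟨h3, h1, h4, h5⟩
  rcases hS with hS | hS
  · refine hR l (fun y => if y0 ≤ (y : ℝ) ∧ (y : ℝ) ≤ y0 + h then B - s * (y - y0) else -1) ?_ ?_
    · intro x y h1
      obtain ⟨h2, h3, h4, h5⟩ := hS _ h1
      refine ⟨h4, ?_⟩
      simp only at h2 h3 h4 h5 ⊢
      rw [if_pos ⟨h2, h3⟩]
      exact h5
    · refine hC (fun _ => y0) Q ?_ hTC
      rintro x y ⟨h1, h2⟩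
      simp only at h1 h2
      split_ifs at h2 with h3
      · refine ⟨h3.1, ?_⟩
        have := (hQ x (y - y0) (by linarith [h3.1])).2 ⟨h1, by linarith [h3.2], by linarith⟩
        linarith
      · have : (0 : ℝ) ≤ x := by exact_mod_cast h1
        linarith
  · refine hR l (fun y => if y0 ≤ (y : ℝ) ∧ (y : ℝ) ≤ y0 + h then B - s * (y0 + h - y) else -1) ?_ ?_
    · intro x y h1
      obtain ⟨h2, h3, h4, h5⟩ := hS _ h1
      refine ⟨h4, ?_⟩
      simp only at h2 h3 h4 h5 ⊢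
      rw [if_pos ⟨h2, h3⟩]
      exact h5
    · refine hC (fun x => y0 + h - Q x) Q ?_ hTC
      rintro x y ⟨h1, h2⟩
      simp only at h1 h2
      split_ifs at h2 with h3
      · have := (hQ x (y0 + h - y) (by linarith [h3.2])).2 ⟨h1, by linarith [h3.1], by linarith⟩
        exact ⟨by linarith, by linarith [h3.2]⟩
      · have : (0 : ℝ) ≤ x := by exact_mod_cast h1
        linarith

theorem lin : S_RowS → S_ColS → S_RowE → S_ColE → S_LinS ∧ S_LinE :=
  fun h1 h2 h3 h4 => ⟨linS h1 h2, linE h3 h4⟩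

end Pool.Agent.Q24.WR
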